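import Pool.Agent.H361R2.PA.Sc

set_option autoImplicit false
set_option maxHeartbeats 4000000

/-! # Prime-free translates of unions of `K` sequences at the record scale

Adaptation of `Pool.Agent.H361R2.PA.scale` (starting files) to several sequences at the same time. -/

namespace Pool.Agent.H763.SK

open Finset Filter Pool.Agent.H318R2.Cr Pool.Agent.H361R2.PA

open scoped Classical

theorem scaleK (k : ℕ) (hk1 : 1 ≤ k) (hk2 : k ≤ 2) (C : ℝ) (hC : 0 < C) (D Q : ℕ) (hQ : 0 < Q) :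
    ∃ c : ℝ, 0 < c ∧ ∃ X₀ : ℝ, ∀ X : ℝ, X₀ ≤ X → ∀ K L : ℕ, 1 ≤ K → Real.log X ≤ L →
    (K : ℝ) * L ≤ c * FF k X → ∀ f : ℕ → ℕ → ℤ,
    (∀ i < K, ∀ p m : ℕ, p.Prime → p ∣ m → (p : ℤ) ∣ f i m) →
    (∀ v : ℕ, ∀ R : Finset ℕ, ∃ b : ℕ → ℕ,
      (((R ×ˢ range K).filter (fun q => ∀ p ∈ (Pz v).filter (fun p => ¬ p ∣ Q),
        ¬ (p : ℤ) ∣ (b p : ℤ) + f q.2 q.1)).card : ℝ) ≤ ((R.card : ℝ) * K) * (C * V v ^ k)) →
    (∀ i < K, ∀ m : ℕ, 1 ≤ m → m ≤ L → |(f i m : ℝ)| ≤ Real.exp ((Real.log X) ^ D)) →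
    ∀ r z : ℤ, ∃ n : ℤ, (z : ℝ) + X / 4 < n ∧ (n : ℝ) ≤ z + X ∧
      (∀ q : ℕ, q.Prime → q ∣ Q → (q : ℤ) ∣ n - r) ∧
      ∀ i < K, ∀ m : ℕ, 1 ≤ m → m ≤ L → ¬ Prime (n + f i m) := by
  obtain ⟨c₀, hc₀, X₁, hass⟩ := assemble D
  obtain ⟨c₁, c₂, hc₁, hc₁₂, hV⟩ := cz_bounds
  obtain ⟨y₀, hmed⟩ := card_med
  have hc₂ : 0 < c₂ := hc₁.trans_le hc₁₂
  set c' : ℝ := min 1 (c₀ / (60 * C * (20 * c₂) ^ k * 2 ^ (2 * k + 1))) with hc'
  have hc'0 : 0 < c' := by positivity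
  have hc'1 : c' ≤ 1 := min_le_left _ _
  obtain ⟨X₂, hnum⟩ := num2 (1 / c' + 40 * (Real.log Q + 2) + 10 * y₀ + 10 * Q)
  obtain ⟨X₃, hnum3⟩ := num2 (10 * y₀)
  obtain ⟨X₄, hnum4⟩ := num2 (10 * Q)
  obtain ⟨X₅, hnum5⟩ := num2 (1 / c')
  obtain ⟨X₆, hnum6⟩ := num2 (40 * (Real.log Q + 2))
  refine ⟨c', hc'0, max X₁ (max X₃ (max X₄ (max X₅ X₆))), ?_⟩
  intro X hX K L hK hXL hKL f hf hgr hfb r z
  have hX1 : X₁ ≤ X := (le_max_left _ _).trans hX
  have hX' := (le_max_right _ _).trans hX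
  have hX3 : X₃ ≤ X := (le_max_left _ _).trans hX'
  have hX'' := (le_max_right _ _).trans hX'
  have hX4 : X₄ ≤ X := (le_max_left _ _).trans hX''
  have hX''' := (le_max_right _ _).trans hX''
  have hX5 : X₅ ≤ X := (le_max_left _ _).trans hX'''
  have hX6 : X₆ ≤ X := (le_max_right _ _).trans hX'''
  obtain ⟨hX0, m1, m2, m3, -, m5, m6, m7⟩ := hnum3 X hX3
  obtain ⟨-, -, -, -, -, m8, -, -⟩ := hnum4 X hX4
  obtain ⟨-, -, -, -, m9, -, -, -⟩ := hnum5 X hX5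
  obtain ⟨-, -, -, -, m10, -, -, -⟩ := hnum6 X hX6
  set L1 := Real.log X with hL1
  set u₂ := Real.log L1 with hu₂
  set u₃ := Real.log u₂ with hu₃
  set u₄ := Real.log u₃ with hu₄
  set y := L1 / 10 with hy
  have hy0 : 0 < y := by rw [hy]; linarith
  set F := c' * FF k X with hF
  have hu₃1 : 2 ≤ u₃ := by linarith
  have hu₃0 : 0 < u₃ := by linarith
  have hu₂0 : 0 < u₂ := by linarith
  have hu₄0 : 0 < u₄ := by linarith
  have hFF : FF k X = L1 * (u₂ ^ (k + 1) * u₄ ^ k / u₃ ^ (k + 1)) := by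
    unfold FF
    rw [← hL1, ← hu₂, ← hu₃, ← hu₄]
    ring
  have hu32 : u₃ ≤ u₂ := (Real.log_le_sub_one_of_pos hu₂0).trans (by linarith)
  -- logs of y
  have hl10 : Real.log 10 ≤ 3 := by
    have : Real.log 10 ≤ Real.log (Real.exp 3) := by
      apply Real.log_le_log (by norm_num)
      have h1 := Real.exp_one_gt_d9
      have h2 : Real.exp 3 = Real.exp 1 * Real.exp 1 * Real.exp 1 := by
        rw [← Real.exp_add, ← Real.exp_add]; norm_num
      rw [h2]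
      nlinarith [mul_pos (Real.exp_pos 1) (Real.exp_pos 1)]
    rwa [Real.log_exp] at this
  have hl100 : 0 ≤ Real.log 10 := Real.log_nonneg (by norm_num)
  have hly : Real.log y = u₂ - Real.log 10 := by
    rw [hy, Real.log_div (by linarith) (by norm_num)]
  have hly1 : u₂ / 2 ≤ Real.log y := by rw [hly]; linarith
  have hly2 : Real.log y ≤ u₂ := by rw [hly]; linarith
  have hly0 : 0 < Real.log y := by linarith
  have hlog2 : Real.log 2 ≤ 1 := by have := Real.log_two_lt_d9; linarith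
  set ℓ₂ := Real.log (Real.log y) with hℓ₂
  have hℓ₂1 : u₃ / 2 ≤ ℓ₂ := by
    have h1 := Real.log_le_log (by linarith) hly1
    rw [Real.log_div hu₂0.ne' (by norm_num)] at h1
    linarith
  have hℓ₂2 : ℓ₂ ≤ u₃ := Real.log_le_log hly0 hly2
  have hℓ₂0 : 0 < ℓ₂ := by linarith
  set ℓ₃ := Real.log ℓ₂ with hℓ₃
  have hℓ₃1 : u₄ / 2 ≤ ℓ₃ := by
    have h1 := Real.log_le_log (by linarith) hℓ₂1
    rw [Real.log_div hu₃0.ne' (by norm_num)] at h1
    linarith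
  have hℓ₃2 : ℓ₃ ≤ ℓ₂ := (Real.log_le_sub_one_of_pos hℓ₂0).trans (by linarith)
  have hℓ₃0 : 0 < ℓ₃ := by linarith
  have hWW : WW y = Real.log y * ℓ₃ / (10 * ℓ₂) := rfl
  have hWW1 : Real.log Q + 2 ≤ WW y := by
    rw [hWW, le_div_iff₀ (by positivity)]
    have hQ0 : 0 ≤ Real.log Q := Real.log_natCast_nonneg Q
    have h1 : (u₂ / 2) * 1 ≤ Real.log y * ℓ₃ := by
      apply mul_le_mul hly1 (by linarith) (by norm_num) (by linarith)
    have h2 : (Real.log Q + 2) * (10 * ℓ₂) ≤ (Real.log Q + 2) * (10 * u₃) := by gcongr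
    nlinarith
  have hWW2 : WW y ≤ Real.log y := by
    rw [hWW, div_le_iff₀ (by positivity)]
    nlinarith
  have hWW0 : 2 ≤ WW y := by
    have := Real.log_natCast_nonneg Q
    linarith
  set v : ℕ := ⌊Real.exp (WW y)⌋₊ with hv
  have hv2 : 2 ≤ v := by
    rw [hv, Nat.le_floor_iff (Real.exp_pos _).le]
    have := Real.add_one_le_exp (WW y)
    push_cast; linarith
  have hv0 : (0 : ℝ) < v := by exact_mod_cast (by omega : 0 < v)
  have hvle : (v : ℝ) ≤ Real.exp (WW y) := Nat.floor_le (Real.exp_pos _).le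
  have hlv : WW y / 2 ≤ Real.log v := by
    have h7 : Real.exp (WW y) < v + 1 := Nat.lt_floor_add_one _
    have h8 : (2 : ℝ) ≤ v := by exact_mod_cast (by omega : 2 ≤ v)
    have h9 : Real.exp (WW y) ≤ (v : ℝ) ^ 2 := by nlinarith
    have h10 := Real.log_le_log (Real.exp_pos _) h9
    rw [Real.log_exp, Real.log_pow] at h10
    push_cast at h10; linarith
  have hVv : V v ≤ 20 * c₂ * (2 * u₃) / (u₂ / 2 * (u₄ / 2) * 2) := by
    have h1 := (hV v hv2).2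
    have h2 := V_pos v
    have h3 : V v * (WW y / 2) ≤ c₂ := by
      refine le_trans ?_ h1
      gcongr
    have h4 : (u₂ / 2) * (u₄ / 2) / (10 * u₃) ≤ WW y := by
      rw [hWW]
      apply div_le_div₀ (by positivity) _ (by positivity) (by linarith)
      exact mul_le_mul hly1 hℓ₃1 (by linarith) (by linarith)
    have h5 : V v * ((u₂ / 2) * (u₄ / 2) / (10 * u₃) / 2) ≤ c₂ := by
      refine le_trans ?_ h3
      gcongr
    rw [le_div_iff₀ (by positivity)]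
    have h6 : V v * (u₂ / 2 * (u₄ / 2) * 2) =
        V v * ((u₂ / 2) * (u₄ / 2) / (10 * u₃) / 2) * (40 * u₃) := by
      field_simp
      ring
    rw [h6]
    calc V v * ((u₂ / 2) * (u₄ / 2) / (10 * u₃) / 2) * (40 * u₃) ≤ c₂ * (40 * u₃) := by gcongr
      _ = _ := by ring
  have hVv' : V v ≤ 20 * c₂ * 4 * u₃ / (u₂ * u₄) := by
    refine hVv.trans (le_of_eq ?_)
    field_simp
    ring
  -- the length
  have hK1 : (1 : ℝ) ≤ K := by exact_mod_cast hK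
  have hL0 : (0 : ℝ) ≤ L := Nat.cast_nonneg _
  have hF0 : 0 ≤ F := by
    rw [hF, hFF]
    positivity
  have hLF : (L : ℝ) ≤ F := by
    refine le_trans ?_ hKL
    nlinarith
  have hratio : 1 / c' ≤ u₂ ^ (k + 1) * u₄ ^ k / u₃ ^ (k + 1) := by
    have h1 : 1 / c' ≤ u₂ / u₃ := by rw [le_div_iff₀ hu₃0]; exact m9
    have h2 : 1 ≤ u₂ / u₃ := by rw [le_div_iff₀ hu₃0]; linarith
    have h3 : 1 ≤ u₄ ^ k := one_le_pow₀ (by linarith)
    have h4 : u₂ / u₃ ≤ (u₂ / u₃) ^ (k + 1) := by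
      calc u₂ / u₃ = (u₂ / u₃) ^ 1 := (pow_one _).symm
        _ ≤ _ := pow_le_pow_right₀ h2 (by omega)
    calc 1 / c' ≤ (u₂ / u₃) ^ (k + 1) * 1 := by linarith
      _ ≤ (u₂ / u₃) ^ (k + 1) * u₄ ^ k := by gcongr
      _ = _ := by rw [div_pow]; ring
  have hyL : y ≤ L := by
    rw [hy]
    linarith
  have hratio2 : u₂ ^ (k + 1) * u₄ ^ k / u₃ ^ (k + 1) ≤ u₂ ^ 3 := by
    have h1 : u₂ ^ (k + 1) ≤ u₂ ^ 3 := pow_le_pow_right₀ (by linarith) (by omega)
    have h2 : u₄ ^ k ≤ u₃ ^ (k + 1) := by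
      calc u₄ ^ k ≤ u₃ ^ k := by gcongr
        _ ≤ u₃ ^ (k + 1) := pow_le_pow_right₀ (by linarith) (by omega)
    rw [div_le_iff₀ (by positivity)]
    gcongr
  have hF2 : F ≤ L1 * u₂ ^ 3 := by
    rw [hF, hFF]
    calc c' * (L1 * (u₂ ^ (k + 1) * u₄ ^ k / u₃ ^ (k + 1))) ≤
          1 * (L1 * (u₂ ^ (k + 1) * u₄ ^ k / u₃ ^ (k + 1))) := by
            apply mul_le_mul_of_nonneg_right hc'1; positivity
      _ ≤ 1 * (L1 * u₂ ^ 3) := by gcongr
      _ = _ := one_mul _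
  have hLy : (L : ℝ) ≤ y * (Real.log y) ^ 4 := by
    refine hLF.trans (hF2.trans ?_)
    have h1 : (u₂ / 2) ^ 4 ≤ (Real.log y) ^ 4 := by gcongr
    have h2 : 10 * u₂ ^ 3 ≤ (u₂ / 2) ^ 4 := by
      have : 0 ≤ u₂ ^ 3 := by positivity
      have e : (u₂ / 2) ^ 4 = u₂ * u₂ ^ 3 / 16 := by ring
      rw [e]
      nlinarith
    have h3 : L1 = 10 * y := by rw [hy]; ring
    calc L1 * u₂ ^ 3 = y * (10 * u₂ ^ 3) := by rw [h3]; ring
      _ ≤ y * (Real.log y) ^ 4 := by gcongr; linarith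
  have hL2 : (L : ℝ) ≤ L1 ^ 2 := by
    refine hLF.trans (hF2.trans ?_)
    calc L1 * u₂ ^ 3 ≤ L1 * L1 := by gcongr
      _ = _ := by ring
  have hyy : y₀ ≤ y := by rw [hy]; linarith
  have hQy : (Q : ℝ) ≤ y := by rw [hy]; linarith
  have hcm := hmed y hyy L hyL hLy
  obtain ⟨b, hb⟩ := hgr v (NM y L)
  set b' : ℕ → ℕ := fun p => if p ∣ Q then (r % (p : ℤ)).toNat else
    if Real.log p ≤ WW y then b p else 0 with hb'
  set A : Finset ℤ := ((Icc 1 L) ×ˢ range K).image (fun q => f q.2 q.1) with hA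
  have hAcard : (A.card : ℝ) ≤ L1 ^ 2 := by
    have h1 : A.card ≤ ((Icc 1 L) ×ˢ range K).card := card_image_le
    rw [card_product, Nat.card_Icc, Nat.add_sub_cancel, card_range] at h1
    have h2 : (A.card : ℝ) ≤ L * K := by exact_mod_cast h1
    refine h2.trans ?_
    rw [mul_comm]
    refine hKL.trans (hF2.trans ?_)
    calc L1 * u₂ ^ 3 ≤ L1 * L1 := by gcongr
      _ = _ := by ring
  have hAb : ∀ a ∈ A, |(a : ℝ)| ≤ Real.exp (L1 ^ D) := by
    intro a ha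
    rw [hA, mem_image] at ha
    obtain ⟨⟨m, i⟩, hm, rfl⟩ := ha
    rw [mem_product, mem_Icc, mem_range] at hm
    exact hfb i hm.2 m hm.1.1 hm.1.2
  have hS : (((A.filter (fun a => ∀ p : ℕ, p.Prime → (p : ℝ) ≤ L1 / 10 →
      ¬ (p : ℤ) ∣ (b' p : ℤ) + a)).card : ℕ) : ℝ) ≤ c₀ * L1 := by
    have h1 : (A.filter (fun a => ∀ p : ℕ, p.Prime → (p : ℝ) ≤ L1 / 10 →
        ¬ (p : ℤ) ∣ (b' p : ℤ) + a)) ⊆
        ((NM y L ×ˢ range K).filter (fun q => ∀ p ∈ (Pz v).filter (fun p => ¬ p ∣ Q),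
          ¬ (p : ℤ) ∣ (b p : ℤ) + f q.2 q.1)).image (fun q => f q.2 q.1) := by
      intro a ha
      rw [mem_filter, hA, mem_image] at ha
      obtain ⟨⟨⟨m, i⟩, hmi, rfl⟩, hsur⟩ := ha
      rw [mem_product] at hmi
      obtain ⟨hm, hi⟩ := hmi
      simp only at hm hi hsur
      rw [mem_range] at hi
      rw [mem_image]
      refine ⟨(m, i), ?_, rfl⟩
      rw [mem_filter]
      constructor
      · rw [mem_product]
        refine ⟨?_, mem_range.2 hi⟩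
        show m ∈ NM y L
        rw [NM, mem_filter]
        refine ⟨hm, fun p hp hpm => ?_⟩
        by_contra hcon
        push Not at hcon
        obtain ⟨hpy, hpW⟩ := hcon
        apply hsur p hp hpy
        have hpQ : ¬ p ∣ Q := by
          intro hd
          have h2 := Nat.le_of_dvd hQ hd
          have h3 : Real.log p ≤ Real.log Q :=
            Real.log_le_log (by exact_mod_cast hp.pos) (by exact_mod_cast h2)
          linarith
        have h4 : b' p = 0 := by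
          rw [hb']
          simp only [hpQ, if_false, not_le.2 hpW]
        rw [h4]
        simpa using hf i hi p m hp hpm
      · intro p hp
        rw [mem_filter, mem_Pz] at hp
        obtain ⟨⟨hpp, hpv⟩, hpQ⟩ := hp
        have hp0 : (0 : ℝ) < p := by exact_mod_cast hpp.pos
        have h2 : (p : ℝ) ≤ Real.exp (WW y) := le_trans (by exact_mod_cast hpv) hvle
        have h3 : Real.log p ≤ WW y := by rwa [Real.log_le_iff_le_exp hp0]
        have h4 : (p : ℝ) ≤ y := by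
          refine h2.trans ?_
          calc Real.exp (WW y) ≤ Real.exp (Real.log y) := Real.exp_le_exp.2 hWW2
            _ = y := Real.exp_log hy0
        have h5 := hsur p hpp h4
        have h6 : b' p = b p := by
          rw [hb']
          simp only [hpQ, if_false, h3, if_true]
        rwa [h6] at h5
    have h2 : (((A.filter (fun a => ∀ p : ℕ, p.Prime → (p : ℝ) ≤ L1 / 10 →
        ¬ (p : ℤ) ∣ (b' p : ℤ) + a)).card : ℕ) : ℝ) ≤
        (((NM y L ×ˢ range K).filter (fun q => ∀ p ∈ (Pz v).filter (fun p => ¬ p ∣ Q),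
          ¬ (p : ℤ) ∣ (b p : ℤ) + f q.2 q.1)).card : ℝ) := by
      exact_mod_cast (card_le_card h1).trans card_image_le
    refine h2.trans (hb.trans ?_)
    have h3 : ((NM y L).card : ℝ) * K ≤ 60 * F * u₃ / (u₂ / 2) := by
      have h30 : ((NM y L).card : ℝ) * K ≤ 60 * L * ℓ₂ / Real.log y * K := by gcongr
      refine h30.trans ?_
      have e30 : 60 * L * ℓ₂ / Real.log y * K = 60 * (K * L) * ℓ₂ / Real.log y := by ring
      rw [e30]
      apply div_le_div₀ (by positivity) _ (by positivity) hly1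
      gcongr
    have h4 : V v ^ k ≤ (20 * c₂ * 4 * u₃ / (u₂ * u₄)) ^ k :=
      pow_le_pow_left₀ (V_pos v).le hVv' k
    have h5 : c' ≤ c₀ / (60 * C * (20 * c₂) ^ k * 2 ^ (2 * k + 1)) := min_le_right _ _
    calc ((NM y L).card : ℝ) * K * (C * V v ^ k)
        ≤ (60 * F * u₃ / (u₂ / 2)) * (C * (20 * c₂ * 4 * u₃ / (u₂ * u₄)) ^ k) := by
          have := (V_pos v).le
          gcongr
      _ = c' * (60 * C * (20 * c₂) ^ k * 2 ^ (2 * k + 1)) * L1 := by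
          rw [hF, hFF]
          have e1 : (20 * c₂ * 4 * u₃ / (u₂ * u₄)) ^ k =
              (20 * c₂) ^ k * 4 ^ k * u₃ ^ k / (u₂ ^ k * u₄ ^ k) := by
            rw [div_pow, mul_pow u₂ u₄, mul_pow (20 * c₂ * 4) u₃, mul_pow (20 * c₂) 4]
          have e2 : (2 : ℝ) ^ (2 * k + 1) = 2 * 4 ^ k := by
            have e3 : (4 : ℝ) = 2 ^ 2 := by norm_num
            rw [e3, ← pow_mul]
            ring
          rw [e1, e2, pow_succ u₂ k, pow_succ u₃ k]
          have hu2k : u₂ ^ k ≠ 0 := by positivity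
          have hu3k : u₃ ^ k ≠ 0 := by positivity
          have hu4k : u₄ ^ k ≠ 0 := by positivity
          field_simp
          try ring
      _ ≤ (c₀ / (60 * C * (20 * c₂) ^ k * 2 ^ (2 * k + 1))) *
            (60 * C * (20 * c₂) ^ k * 2 ^ (2 * k + 1)) * L1 := by gcongr
      _ = c₀ * L1 := by field_simp
  obtain ⟨n, hn1, hn2, hn3, hn4⟩ := hass X hX1 A hAcard hAb b' hS z
  refine ⟨n, hn1, hn2, ?_, ?_⟩
  · intro q hq hqQ
    have hqy : (q : ℝ) ≤ y := le_trans (by exact_mod_cast Nat.le_of_dvd hQ hqQ) hQy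
    have h1 := hn3 q hq hqy
    have h2 : b' q = (r % (q : ℤ)).toNat := by
      rw [hb']
      simp only [hqQ, if_true]
    have hq' : (0 : ℤ) < q := by exact_mod_cast hq.pos
    have h3 : ((b' q : ℕ) : ℤ) = r % (q : ℤ) := by
      rw [h2, Int.toNat_of_nonneg (Int.emod_nonneg _ hq'.ne')]
    rw [h3] at h1
    have h4 := Int.emod_add_mul_ediv r (q : ℤ)
    obtain ⟨w, hw⟩ := h1
    exact ⟨w - r / (q : ℤ), by linarith⟩
  · intro i hi m hm1 hm2
    apply hn4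
    rw [hA, mem_image]
    exact ⟨(m, i), mem_product.2 ⟨mem_Icc.2 ⟨hm1, hm2⟩, mem_range.2 hi⟩, rfl⟩


/-- greedy choice of classes for pairs -/
theorem greedy_pairs (f : ℕ → ℕ → ℤ) (K : ℕ) (S : Finset ℕ) (hS : ∀ p ∈ S, p.Prime) (R : Finset ℕ) :
    ∃ b : ℕ → ℕ,
    (((R ×ˢ range K).filter (fun q => ∀ p ∈ S, ¬ (p : ℤ) ∣ (b p : ℤ) + f q.2 q.1)).card : ℝ) ≤
      ((R.card : ℝ) * K) * ∏ p ∈ S, (1 - 1 / (p : ℝ)) := by
  obtain ⟨b, hb⟩ := greedy_any (fun t => f (t % K) (t / K)) S hS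
    ((R ×ˢ range K).image (fun q => q.1 * K + q.2))
  refine ⟨b, ?_⟩
  have hinj : Set.InjOn (fun q : ℕ × ℕ => q.1 * K + q.2) ((R ×ˢ range K : Finset (ℕ × ℕ)) : Set (ℕ × ℕ)) := by
    rintro ⟨m, i⟩ h1 ⟨m', i'⟩ h2 h
    simp only [coe_product, Set.mem_prod, mem_coe, mem_range] at h1 h2 h
    have hK : 0 < K := by omega
    have e1 : (m * K + i) / K = m := by
      rw [Nat.mul_comm, Nat.mul_add_div hK, Nat.div_eq_of_lt h1.2, add_zero]
    have e2 : (m' * K + i') / K = m' := by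
      rw [Nat.mul_comm, Nat.mul_add_div hK, Nat.div_eq_of_lt h2.2, add_zero]
    have e3 : m = m' := by rw [← e1, ← e2, h]
    subst e3
    have e4 : i = i' := by omega
    rw [e4]
  have hcard : (((R ×ˢ range K).image (fun q : ℕ × ℕ => q.1 * K + q.2)).card : ℝ) = (R.card : ℝ) * K := by
    rw [card_image_of_injOn hinj, card_product, card_range]
    push_cast
    ring
  rw [hcard] at hb
  refine le_trans ?_ hb
  have h5 : (((R ×ˢ range K).filter (fun q => ∀ p ∈ S, ¬ (p : ℤ) ∣ (b p : ℤ) + f q.2 q.1)).card) ≤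
      (((R ×ˢ range K).image (fun q : ℕ × ℕ => q.1 * K + q.2)).filter
        (fun t => ∀ p ∈ S, ¬ (p : ℤ) ∣ (b p : ℤ) + f (t % K) (t / K))).card := by
    apply card_le_card_of_injOn (fun q : ℕ × ℕ => q.1 * K + q.2)
    · rintro ⟨m, i⟩ hq
      simp only [coe_filter, Set.mem_setOf_eq, mem_product, mem_range, mem_image] at hq ⊢
      obtain ⟨⟨hm, hi⟩, hq2⟩ := hq
      have hK : 0 < K := by omega
      refine ⟨⟨(m, i), ⟨hm, hi⟩, rfl⟩, ?_⟩
      have e1 : (m * K + i) / K = m := by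
        rw [Nat.mul_comm, Nat.mul_add_div hK, Nat.div_eq_of_lt hi, add_zero]
      have e2 : (m * K + i) % K = i := by
        rw [Nat.mul_comm, Nat.mul_add_mod, Nat.mod_eq_of_lt hi]
      intro p hp
      rw [e1, e2]
      exact hq2 p hp
    · exact hinj.mono (by intro q hq; exact mem_coe.2 (mem_filter.1 (mem_coe.1 hq)).1)
  exact_mod_cast h5

/-- `K` arbitrary sequences of multiples at the same time -/
theorem scaleK_mult (D Q : ℕ) (hQ : 0 < Q) :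
    ∃ c : ℝ, 0 < c ∧ ∃ X₀ : ℝ, ∀ X : ℝ, X₀ ≤ X → ∀ K L : ℕ, 1 ≤ K → Real.log X ≤ L →
    (K : ℝ) * L ≤ c * FF 1 X → ∀ f : ℕ → ℕ → ℤ,
    (∀ i < K, ∀ p m : ℕ, p.Prime → p ∣ m → (p : ℤ) ∣ f i m) →
    (∀ i < K, ∀ m : ℕ, 1 ≤ m → m ≤ L → |(f i m : ℝ)| ≤ Real.exp ((Real.log X) ^ D)) →
    ∀ r z : ℤ, ∃ n : ℤ, (z : ℝ) + X / 4 < n ∧ (n : ℝ) ≤ z + X ∧
      (∀ q : ℕ, q.Prime → q ∣ Q → (q : ℤ) ∣ n - r) ∧
      ∀ i < K, ∀ m : ℕ, 1 ≤ m → m ≤ L → ¬ Prime (n + f i m) := by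
  obtain ⟨c, hc, X₀, h⟩ := scaleK 1 le_rfl (by norm_num) ((2 : ℝ) ^ Q) (by positivity) D Q hQ
  refine ⟨c, hc, X₀, fun X hX K L hK hXL hKL f hf hfb r z => ?_⟩
  refine h X hX K L hK hXL hKL f hf ?_ hfb r z
  intro v R
  obtain ⟨b, hb⟩ := greedy_pairs f K ((Pz v).filter (fun p => ¬ p ∣ Q))
    (fun p hp => (mem_Pz.1 (mem_filter.1 hp).1).1) R
  refine ⟨b, hb.trans ?_⟩
  have h1 := prod_any Q v hQ
  rw [pow_one]
  gcongr

end Pool.Agent.H763.SK
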